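import Mathlib
import Pool.Agent.Y712.Pell
import Pool.Agent.H19P.QA
import Pool.Agent.H19P.QC

set_option autoImplicit false

/-!
# The equation `p ^ 2 - 2 r ^ 2 = -1`: prime values along the real solutions of the recurrence

Let `T β B n = β (1 + √2) ^ n + B (1 - √2) ^ n` and
`R β B n = (β (1 + √2) ^ n - B (1 - √2) ^ n) / √2`, the real solutions of the recurrence
`x (n + 2) = 2 x (n + 1) + x n`; `T ^ 2 - 2 R ^ 2 = 4 β B (-1) ^ n`.  For `β = B = 1 / 2` and odd `n`
the pairs `(T, R)` are the positive integer solutions of `p ^ 2 - 2 r ^ 2 = -1`.  For a prime `n` let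
`P β B n` and `D β B n` be the `n`-rough parts (the products, with multiplicity, of the prime factors
larger than `n`) of `⌊T β B n⌋` and `⌊R β B n⌋`.  At `β = B = 1 / 2` the prime values of `P` for odd
primes `n` are exactly the primes `p` of Q1, and the pairs of prime values `(P, D)` are exactly the
pairs of Q2, each taken once.

The recurrence, that is the base `1 + √2`, is fixed.  We prove that for every `B` and almost every
`β > 0` the number of primes `n ≤ N` with `P β B n` prime is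
`(e ^ γ / log (1 + √2)) log N + O((log N) ^ (1/2) (log log N) ^ (5/2))`, with the corresponding law
and dichotomy for the indices in any set of primes; and that for every `B` and almost every `β > 0`
there are infinitely many primes `n` with `P β B n` prime and infinitely many with `D β B n` prime,
but only finitely many for which both are prime.
-/

namespace Pool.Agent.Results.MP_927e73_nt.FixedBase

open Filter Topology MeasureTheory Asymptotics

/-- `β (1 + √2) ^ n + B (1 - √2) ^ n`. -/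
noncomputable def T (β B : ℝ) (n : ℕ) : ℝ :=
  β * (1 + Real.sqrt 2) ^ n + B * (1 - Real.sqrt 2) ^ n

/-- `(β (1 + √2) ^ n - B (1 - √2) ^ n) / √2`. -/
noncomputable def R (β B : ℝ) (n : ℕ) : ℝ :=
  (β * (1 + Real.sqrt 2) ^ n - B * (1 - Real.sqrt 2) ^ n) / Real.sqrt 2

/-- The product, with multiplicity, of the prime factors of `m` that are larger than `n`. -/
def roughPart (n m : ℕ) : ℕ := (m.primeFactorsList.filter (fun r => n < r)).prod

/-- The `n`-rough part of `⌊T β B n⌋`. -/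
noncomputable def P (β B : ℝ) (n : ℕ) : ℕ := roughPart n ⌊T β B n⌋₊

/-- The `n`-rough part of `⌊R β B n⌋`. -/
noncomputable def D (β B : ℝ) (n : ℕ) : ℕ := roughPart n ⌊R β B n⌋₊

open Classical in
/-- The number of primes `n ≤ N` in the set `S` for which `P β B n` is prime. -/
noncomputable def M (S : Set ℕ) (β B : ℝ) (N : ℕ) : ℕ :=
  ((Finset.range (N + 1)).filter (fun n => n.Prime ∧ n ∈ S ∧ (P β B n).Prime)).card

open Classical in
/-- The sum of `log n / n` over the primes `n ≤ N` in the set `S`. -/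
noncomputable def V (S : Set ℕ) (N : ℕ) : ℝ :=
  ∑ n ∈ (Finset.range (N + 1)).filter (fun n => n.Prime ∧ n ∈ S), Real.log n / n

lemma V_eq (S : Set ℕ) (N : ℕ) : V S N = Pool.Agent.TH888.R.VS S N := by
  classical
  unfold V Pool.Agent.TH888.R.VS
  rw [Finset.sum_filter]
  refine Finset.sum_congr rfl fun p _ => ?_
  by_cases h : p.Prime ∧ p ∈ S
  · rw [if_pos h, if_pos ⟨h.2, h.1⟩]
    rfl
  · rw [if_neg h, if_neg fun h1 => h ⟨h1.2, h1.1⟩]

lemma sq2 : Real.sqrt 2 * Real.sqrt 2 = 2 := Real.mul_self_sqrt (by norm_num)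

lemma sqrt2_pos : 0 < Real.sqrt 2 := Real.sqrt_pos.2 (by norm_num)

lemma one_lt_al : 1 < 1 + Real.sqrt 2 := by linarith [sqrt2_pos]

lemma al_add : (1 + Real.sqrt 2) + (1 - Real.sqrt 2) = ((2 : ℤ) : ℝ) := by push_cast; ring

lemma al_mul : (1 + Real.sqrt 2) * (1 - Real.sqrt 2) = -1 := by nlinarith [sq2]

lemma norm_TR (β B : ℝ) (n : ℕ) : T β B n ^ 2 - 2 * R β B n ^ 2 = 4 * (β * B) * (-1) ^ n := by
  unfold T R
  rw [div_pow, sq (Real.sqrt 2), sq2, ← al_mul, mul_pow]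
  ring

open Pool.Agent.Y712.Pell

lemma T_half (n : ℕ) : T (1 / 2) (1 / 2) n = (a n : ℝ) := by
  have h := closed (K := ℝ) (s := Real.sqrt 2) sq2 n
  unfold T
  rw [h.1, h.2]
  ring

lemma R_half (n : ℕ) : R (1 / 2) (1 / 2) n = (b n : ℝ) := by
  have h := closed (K := ℝ) (s := Real.sqrt 2) sq2 n
  unfold R
  rw [h.1, h.2]
  have := sqrt2_pos.ne'
  field_simp
  ring

lemma P_half {n : ℕ} (hn : n.Prime) (hn2 : n ≠ 2) : P (1 / 2) (1 / 2) n = a n := by
  unfold P
  rw [T_half, Nat.floor_natCast]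
  exact rough_self (a_pos n).ne' fun q hq hd => factor_gt hn hn2 hq (hd.mul_right _)

lemma D_half {n : ℕ} (hn : n.Prime) (hn2 : n ≠ 2) : D (1 / 2) (1 / 2) n = b n := by
  unfold D
  rw [R_half, Nat.floor_natCast]
  exact rough_self (b_pos hn.pos).ne' fun q hq hd => factor_gt hn hn2 hq (hd.mul_left _)

lemma M_eq (S : Set ℕ) (β B : ℝ) (N : ℕ) :
    M S β B N = Pool.Agent.TH888.R.cS S
      (fun p => ⌊β * (1 + Real.sqrt 2) ^ p + B * (1 - Real.sqrt 2) ^ p⌋₊) N := by
  classical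
  unfold M Pool.Agent.TH888.R.cS
  rfl

lemma ae_scale {Q : ℝ → Prop} {c : ℝ} (hc : c ≠ 0) (h : ∀ᵐ x : ℝ, Q x) : ∀ᵐ x : ℝ, Q (c * x) := by
  rw [ae_iff] at h ⊢
  have e : {x | ¬ Q (c * x)} = (c * ·) ⁻¹' {x | ¬ Q x} := rfl
  rw [e, Real.volume_preimage_mul_left hc, h, mul_zero]

/-- the denominators -/
lemma pt_D (B : ℝ) (S : Set ℕ) : ∀ᵐ β : ℝ, 0 < β → Pool.Agent.TH888.R.Pt (fun p => ⌊R β B p⌋₊)
    (Real.exp Real.eulerMascheroniConstant / Real.log (1 + Real.sqrt 2)) S := by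
  have h := Pool.Agent.H19P.pt_unit one_lt_al al_add al_mul (-(B / Real.sqrt 2)) S
  filter_upwards [ae_scale (c := 1 / Real.sqrt 2) (by have := sqrt2_pos; positivity) h] with β hβ h0
  have h1 := hβ (by have := sqrt2_pos; positivity)
  have e : (fun p : ℕ => ⌊R β B p⌋₊) = fun p : ℕ => ⌊1 / Real.sqrt 2 * β * (1 + Real.sqrt 2) ^ p +
      -(B / Real.sqrt 2) * (1 - Real.sqrt 2) ^ p⌋₊ := by
    funext p
    congr 1
    unfold R
    have := sqrt2_pos.ne'
    field_simp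
    ring
  rw [e]
  exact h1

/-- the Diophantine condition for `√2` -/
lemma dio_sqrt2 (a b : ℕ) (ha : 1 ≤ a) (hb : 1 ≤ b) :
    1 ≤ |(a : ℝ) - b * Real.sqrt 2| * (Real.sqrt 2 * (a + b)) := by
  have ha0 : (1 : ℝ) ≤ a := by exact_mod_cast ha
  have hb0 : (1 : ℝ) ≤ b := by exact_mod_cast hb
  have h1 : ((a : ℤ) ^ 2 - 2 * (b : ℤ) ^ 2) ≠ 0 := by
    intro h
    have h2 : (a : ℝ) ^ 2 = 2 * (b : ℝ) ^ 2 := by
      have : ((a : ℤ) : ℝ) ^ 2 - 2 * ((b : ℤ) : ℝ) ^ 2 = 0 := by exact_mod_cast h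
      push_cast at this
      linarith
    have h3 : Real.sqrt 2 = ((a : ℚ) / b : ℚ) := by
      have h4 : (a : ℝ) = Real.sqrt 2 * b := by
        have h5 : (a : ℝ) ^ 2 = (Real.sqrt 2 * b) ^ 2 := by rw [h2, mul_pow, sq (Real.sqrt 2), sq2]
        exact (sq_eq_sq₀ (by positivity) (by have := sqrt2_pos; positivity)).1 h5
      push_cast
      rw [h4]
      field_simp
    exact irrational_sqrt_two ⟨_, h3.symm⟩
  have h2 : (1 : ℝ) ≤ |(a : ℝ) - b * Real.sqrt 2| * |(a : ℝ) + b * Real.sqrt 2| := by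
    rw [← abs_mul]
    have e : ((a : ℝ) - b * Real.sqrt 2) * (a + b * Real.sqrt 2) =
        (((a : ℤ) ^ 2 - 2 * (b : ℤ) ^ 2 : ℤ) : ℝ) := by
      push_cast
      linear_combination -(b : ℝ) ^ 2 * sq2
    rw [e, ← Int.cast_abs]
    exact_mod_cast Int.one_le_abs h1
  refine h2.trans (mul_le_mul_of_nonneg_left ?_ (abs_nonneg _))
  have h3 : 1 ≤ Real.sqrt 2 := by rw [Real.one_le_sqrt]; norm_num
  rw [abs_of_pos (by have := sqrt2_pos; positivity)]
  nlinarith

/-- both values are prime only finitely often -/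
lemma fin_both (B : ℝ) : ∀ᵐ β : ℝ, 0 < β → {n : ℕ | n.Prime ∧ (P β B n).Prime ∧ (D β B n).Prime}.Finite := by
  have hα' : |1 - Real.sqrt 2| < 1 := Pool.Agent.H19P.conj_abs one_lt_al al_mul
  have h3 : 1 ≤ Real.sqrt 2 := by rw [Real.one_le_sqrt]; norm_num
  have hb : ∀ (c : ℝ), |c| ≤ |B| → ∀ p : ℕ,
      |(fun p : ℕ => c * (1 - Real.sqrt 2) ^ p) p| ≤ |B| * (1 : ℝ) ^ p := by
    intro c hc p
    simp only
    rw [one_pow, abs_mul, abs_pow]
    exact mul_le_mul hc (pow_le_one₀ (abs_nonneg _) hα'.le) (by positivity) (abs_nonneg _)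
  have hc1 : |-(B / Real.sqrt 2)| ≤ |B| := by
    rw [abs_neg, abs_div, abs_of_pos sqrt2_pos, div_le_iff₀ sqrt2_pos]
    nlinarith [abs_nonneg B]
  have h := Pool.Agent.H19P.fin_ratio (α := 1 + Real.sqrt 2) (κ := 1) (C := |B|) (A := Real.sqrt 2)
    (θ := Real.sqrt 2) one_lt_al zero_le_one one_lt_al (hb _ hc1) (hb B le_rfl) h3
    (by linarith) h3 dio_sqrt2
  filter_upwards [h] with β hβ h0
  refine (hβ h0).subset ?_
  rintro n ⟨k1, k2, k3⟩
  refine ⟨k1, ?_, k2⟩
  have e : R β B n = β / Real.sqrt 2 * (1 + Real.sqrt 2) ^ n +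
      -(B / Real.sqrt 2) * (1 - Real.sqrt 2) ^ n := by
    unfold R
    have := sqrt2_pos.ne'
    field_simp
    ring
  have k4 : (roughPart n ⌊R β B n⌋₊).Prime := k3
  rw [e] at k4
  exact k4

/-- At `β = B = 1 / 2` the prime values are the primes and the pairs of primes of the question.  For
every `B` and almost every `β > 0` the law holds with a square root error term; for every set of
primes the number of prime values is finite or infinite according to the weight of the set, and in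
the second case it obeys the corresponding law; each of the two numbers is prime infinitely often,
but both only finitely often. -/
theorem result :
    (∀ (β B : ℝ) (n : ℕ), T β B n ^ 2 - 2 * R β B n ^ 2 = 4 * (β * B) * (-1) ^ n) ∧
    (P (1 / 2) (1 / 2) '' {n : ℕ | (n.Prime ∧ n ≠ 2) ∧ (P (1 / 2) (1 / 2) n).Prime} =
        {p : ℕ | p.Prime ∧ ∃ r : ℕ, 0 < r ∧ (p : ℤ) ^ 2 - 2 * (r : ℤ) ^ 2 = -1} ∧
      (fun n => (P (1 / 2) (1 / 2) n, D (1 / 2) (1 / 2) n)) ''
          {n : ℕ | (n.Prime ∧ n ≠ 2) ∧ (P (1 / 2) (1 / 2) n).Prime ∧ (D (1 / 2) (1 / 2) n).Prime} =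
        {q : ℕ × ℕ | q.1.Prime ∧ q.2.Prime ∧ (q.1 : ℤ) ^ 2 - 2 * (q.2 : ℤ) ^ 2 = -1} ∧
      Set.InjOn (P (1 / 2) (1 / 2)) {n : ℕ | n.Prime ∧ n ≠ 2}) ∧
    (∀ B : ℝ,
      (∀ᵐ β : ℝ, 0 < β →
        (fun N : ℕ => (M Set.univ β B N : ℝ) -
          Real.exp Real.eulerMascheroniConstant / Real.log (1 + Real.sqrt 2) * Real.log N) =O[atTop]
        (fun N : ℕ => Real.sqrt (Real.log N) * (Real.log (Real.log N)) ^ ((5 : ℝ) / 2))) ∧
      (∀ S : Set ℕ, Tendsto (V S) atTop atTop → ∀ᵐ β : ℝ, 0 < β →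
        (fun N : ℕ => (M S β B N : ℝ) -
          Real.exp Real.eulerMascheroniConstant / Real.log (1 + Real.sqrt 2) * V S N) =O[atTop]
        (fun N : ℕ => Real.sqrt (V S N * Real.log (Real.log N)) *
          (Real.log (V S N * Real.log (Real.log N))) ^ 2)) ∧
      (∀ S : Set ℕ, ∀ᵐ β : ℝ, 0 < β →
        ({n : ℕ | n.Prime ∧ n ∈ S ∧ (P β B n).Prime}.Infinite ↔ Tendsto (V S) atTop atTop)) ∧
      (∀ᵐ β : ℝ, 0 < β →
        {n : ℕ | n.Prime ∧ (P β B n).Prime}.Infinite ∧ {n : ℕ | n.Prime ∧ (D β B n).Prime}.Infinite ∧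
        {n : ℕ | n.Prime ∧ (P β B n).Prime ∧ (D β B n).Prime}.Finite)) := by
  have hV : ∀ S, V S = Pool.Agent.TH888.R.VS S := fun S => funext fun n => V_eq S n
  refine ⟨norm_TR, ⟨?_, ?_, ?_⟩, fun B => ⟨?_, fun S hS => ?_, fun S => ?_, ?_⟩⟩
  · ext p
    simp only [Set.mem_image, Set.mem_ofPred_eq]
    constructor
    · rintro ⟨n, ⟨⟨hn, hn2⟩, hw⟩, rfl⟩
      refine ⟨hw, b n, b_pos hn.pos, ?_⟩
      rw [P_half hn hn2]
      have h1 := norm_odd (hn.odd_of_ne_two hn2)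
      have h2 : ((a n ^ 2 + 1 : ℕ) : ℤ) = ((2 * b n ^ 2 : ℕ) : ℤ) := by rw [h1]
      push_cast at h2
      linarith
    · rintro ⟨hp, r, hr, h⟩
      have h1 : p ^ 2 + 1 = 2 * r ^ 2 := by
        have h2 : ((p ^ 2 + 1 : ℕ) : ℤ) = ((2 * r ^ 2 : ℕ) : ℤ) := by
          push_cast
          linarith
        exact_mod_cast h2
      obtain ⟨n, hn, e1, e2⟩ := sol r p h1
      have h3 : n.Prime := prime_index_a hn (e1 ▸ hp)
      have h4 : n ≠ 2 := by
        rintro rfl
        exact absurd hn (by decide)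
      refine ⟨n, ⟨⟨h3, h4⟩, ?_⟩, ?_⟩
      · rw [P_half h3 h4, ← e1]
        exact hp
      · rw [P_half h3 h4, ← e1]
  · ext ⟨p, r⟩
    simp only [Set.mem_image, Set.mem_ofPred_eq, Prod.mk.injEq]
    constructor
    · rintro ⟨n, ⟨⟨hn, hn2⟩, hw, hw2⟩, rfl, rfl⟩
      refine ⟨hw, hw2, ?_⟩
      rw [P_half hn hn2, D_half hn hn2]
      have h1 := norm_odd (hn.odd_of_ne_two hn2)
      have h2 : ((a n ^ 2 + 1 : ℕ) : ℤ) = ((2 * b n ^ 2 : ℕ) : ℤ) := by rw [h1]
      push_cast at h2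
      linarith
    · rintro ⟨hp, hr, h⟩
      have h1 : p ^ 2 + 1 = 2 * r ^ 2 := by
        have h2 : ((p ^ 2 + 1 : ℕ) : ℤ) = ((2 * r ^ 2 : ℕ) : ℤ) := by
          push_cast
          linarith
        exact_mod_cast h2
      obtain ⟨n, hn, e1, e2⟩ := sol r p h1
      have h3 : n.Prime := prime_index_a hn (e1 ▸ hp)
      have h4 : n ≠ 2 := by
        rintro rfl
        exact absurd hn (by decide)
      refine ⟨n, ⟨⟨h3, h4⟩, ?_, ?_⟩, ?_, ?_⟩
      · rw [P_half h3 h4, ← e1]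
        exact hp
      · rw [D_half h3 h4, ← e2]
        exact hr
      · rw [P_half h3 h4, ← e1]
      · rw [D_half h3 h4, ← e2]
  · rintro m ⟨hm, hm2⟩ n ⟨hn, hn2⟩ h
    simp only [P_half hm hm2, P_half hn hn2] at h
    rcases lt_trichotomy m n with h1 | h1 | h1
    · exact absurd h (a_lt hm.pos h1).ne
    · exact h1
    · exact absurd h (a_lt hn.pos h1).ne'
  · filter_upwards [Pool.Agent.H19P.pt_unit one_lt_al al_add al_mul B Set.univ] with β hβ h0
    obtain ⟨B, hB, h⟩ := (hβ h0).law Pool.Agent.TH888.R.VS_univ_tendsto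
    simp only [M_eq]
    exact Pool.Agent.TH888.R.bigO_all hB h
  · rw [hV] at hS ⊢
    filter_upwards [Pool.Agent.H19P.pt_unit one_lt_al al_add al_mul B S] with β hβ h0
    obtain ⟨B, hB, h⟩ := (hβ h0).law hS
    simp only [M_eq]
    exact Pool.Agent.TH888.R.bigO_set hB hS h
  · rw [hV]
    filter_upwards [Pool.Agent.H19P.pt_unit one_lt_al al_add al_mul B S] with β hβ h0
    constructor
    · intro hi
      by_contra hn
      exact hi ((hβ h0).fin hn)
    · exact (hβ h0).inf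
  · filter_upwards [Pool.Agent.H19P.pt_unit one_lt_al al_add al_mul B Set.univ, pt_D B Set.univ,
      fin_both B] with β h1 h2 h3 h0
    refine ⟨?_, ?_, h3 h0⟩
    · refine ((h1 h0).inf Pool.Agent.TH888.R.VS_univ_tendsto).mono ?_
      rintro p ⟨k1, _, k2⟩
      exact ⟨k1, k2⟩
    · refine ((h2 h0).inf Pool.Agent.TH888.R.VS_univ_tendsto).mono ?_
      rintro p ⟨k1, _, k2⟩
      exact ⟨k1, k2⟩

end Pool.Agent.Results.MP_927e73_nt.FixedBase
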