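import Mathlib
import Pool.Agent.TH888.C.Val
import Pool.Agent.Y712.Pell

set_option autoImplicit false

/-!
# Prime numerators: the family through the negative Pell equation

For real `x > 0` let `V x n` be the Lucas sequence `V x 0 = 2`, `V x 1 = x`,
`V x (n + 2) = x V x (n + 1) + V x n`, so that `V 2 n = (1 + √2) ^ n + (1 - √2) ^ n`.  For a positive
`C ^ 2` function `A` with `A 2 = 1 / 2` and an odd prime `n` let `W A x n` be the `n`-rough part (the
product, with multiplicity, of the prime factors larger than `n`) of `⌊A x * V x n⌋`.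

At `x = 2` the prime values of `W A 2 n`, for odd primes `n`, are exactly the primes `p` for which
`p ^ 2 - 2 r ^ 2 = -1` is solvable, each taken once, so that Q1 asks whether there are infinitely
many primes `n` with `W A 2 n` prime.  We prove that for almost every real `x > 0` the number of
primes `n ≤ N` with `W A x n` prime is
`(e ^ γ / log ((x + √(x ^ 2 + 4)) / 2)) log N + O((log N) ^ (1/2) (log log N) ^ (5/2))`, and the
corresponding law and dichotomy for the exponents `n` in an arbitrary set `S` of primes.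
-/

namespace Pool.Agent.Results.MP_927e73_nt.PrimeNumerators

open Filter Topology MeasureTheory Asymptotics

/-- The Lucas sequence of the second kind with parameters `(x, -1)`. -/
noncomputable def V (x : ℝ) : ℕ → ℝ
  | 0 => 2
  | 1 => x
  | (n + 2) => x * V x (n + 1) + V x n

/-- The product, with multiplicity, of the prime factors of `m` that are larger than `p`. -/
def roughPart (p m : ℕ) : ℕ := (m.primeFactorsList.filter (fun r => p < r)).prod

/-- The `n`-rough part of `⌊A x * V x n⌋`. -/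
noncomputable def W (A : ℝ → ℝ) (x : ℝ) (n : ℕ) : ℕ := roughPart n ⌊A x * V x n⌋₊

open Classical in
/-- The number of primes `n ≤ N` in the set `S` for which `W A x n` is prime. -/
noncomputable def M (A : ℝ → ℝ) (S : Set ℕ) (x : ℝ) (N : ℕ) : ℕ :=
  ((Finset.range (N + 1)).filter (fun n => n.Prime ∧ n ∈ S ∧ (W A x n).Prime)).card

open Classical in
/-- The sum of `log n / n` over the primes `n ≤ N` in the set `S`. -/
noncomputable def L (S : Set ℕ) (N : ℕ) : ℝ :=
  ∑ n ∈ (Finset.range (N + 1)).filter (fun n => n.Prime ∧ n ∈ S), Real.log n / n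

lemma L_eq (S : Set ℕ) (n : ℕ) : L S n = Pool.Agent.TH888.R.VS S n := by
  classical
  unfold L Pool.Agent.TH888.R.VS
  rw [Finset.sum_filter]
  refine Finset.sum_congr rfl fun p _ => ?_
  by_cases h : p.Prime ∧ p ∈ S
  · rw [if_pos h, if_pos ⟨h.2, h.1⟩]
    rfl
  · rw [if_neg h, if_neg fun h1 => h ⟨h1.2, h1.1⟩]

lemma V_eq (x : ℝ) : ∀ n : ℕ, V x n = Pool.Agent.W66C.lV x n
  | 0 => rfl
  | 1 => rfl
  | (n + 2) => by
      have e : Pool.Agent.W66C.lV x (n + 2) =
        x * Pool.Agent.W66C.lV x (n + 1) + Pool.Agent.W66C.lV x n := rfl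
      rw [e, ← V_eq x (n + 1), ← V_eq x n]
      rfl

open Pool.Agent.Y712.Pell

lemma V_two : ∀ n : ℕ, V 2 n = 2 * (a n : ℝ)
  | 0 => by simp [V, a_zero]
  | 1 => by simp [V, a_one]
  | (n + 2) => by
      have e : V 2 (n + 2) = 2 * V 2 (n + 1) + V 2 n := rfl
      rw [e, V_two (n + 1), V_two n, a_succ (n + 1), b_succ, a_succ]
      push_cast
      ring

lemma W_two {A : ℝ → ℝ} (hA : A 2 = 1 / 2) {n : ℕ} (hn : n.Prime) (hn2 : n ≠ 2) : W A 2 n = a n := by
  unfold W
  rw [hA, V_two]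
  have e : (1 / 2 : ℝ) * (2 * (a n : ℝ)) = (a n : ℝ) := by ring
  rw [e, Nat.floor_natCast]
  exact rough_self (a_pos n).ne' fun q hq hd => factor_gt hn hn2 hq (hd.mul_right _)

lemma M_eq (A : ℝ → ℝ) (S : Set ℕ) (x : ℝ) (n : ℕ) :
    M A S x n = Pool.Agent.TH888.R.cS S (fun p => ⌊A x * Pool.Agent.W66C.lV x p⌋₊) n := by
  classical
  unfold M Pool.Agent.TH888.R.cS W
  simp only [V_eq]
  rfl

lemma set_eq (A : ℝ → ℝ) (S : Set ℕ) (x : ℝ) : {n : ℕ | n.Prime ∧ n ∈ S ∧ (W A x n).Prime} =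
    {p : ℕ | p.Prime ∧ p ∈ S ∧
      (Pool.Agent.H305R2.roughPart p ⌊A x * Pool.Agent.W66C.lV x p⌋₊).Prime} := by
  unfold W
  simp only [V_eq]
  rfl

/-- At `x = 2` the prime values are the primes of the question, and along every positive `C ^ 2`
curve of amplitudes the law holds with a square root error term for almost every real `x > 0`; for
every set of primes the number of prime values is finite or infinite according to the weight of the
set, and in the second case it obeys the corresponding law. -/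
theorem result :
    (∀ n : ℕ, V 2 n = (1 + Real.sqrt 2) ^ n + (1 - Real.sqrt 2) ^ n) ∧
    (∀ A : ℝ → ℝ, A 2 = 1 / 2 →
      Set.InjOn (W A 2) {n : ℕ | n.Prime ∧ n ≠ 2} ∧
      W A 2 '' {n : ℕ | (n.Prime ∧ n ≠ 2) ∧ (W A 2 n).Prime} =
        {p : ℕ | p.Prime ∧ ∃ r : ℕ, 0 < r ∧ (p : ℤ) ^ 2 - 2 * (r : ℤ) ^ 2 = -1}) ∧
    (∀ A : ℝ → ℝ, ContDiffOn ℝ 2 A (Set.Ioi 0) → (∀ x : ℝ, 0 < x → 0 < A x) →
      (∀ᵐ x : ℝ, 0 < x →
        (fun N : ℕ => (M A Set.univ x N : ℝ) -
          Real.exp Real.eulerMascheroniConstant / Real.log ((x + Real.sqrt (x ^ 2 + 4)) / 2) *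
            Real.log N) =O[atTop]
        (fun N : ℕ => Real.sqrt (Real.log N) * (Real.log (Real.log N)) ^ ((5 : ℝ) / 2))) ∧
      (∀ S : Set ℕ, Tendsto (L S) atTop atTop → ∀ᵐ x : ℝ, 0 < x →
        (fun N : ℕ => (M A S x N : ℝ) -
          Real.exp Real.eulerMascheroniConstant / Real.log ((x + Real.sqrt (x ^ 2 + 4)) / 2) *
            L S N) =O[atTop]
        (fun N : ℕ => Real.sqrt (L S N * Real.log (Real.log N)) *
          (Real.log (L S N * Real.log (Real.log N))) ^ 2)) ∧
      (∀ S : Set ℕ, ∀ᵐ x : ℝ, 0 < x →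
        ({n : ℕ | n.Prime ∧ n ∈ S ∧ (W A x n).Prime}.Infinite ↔ Tendsto (L S) atTop atTop))) := by
  have hV : ∀ S, L S = Pool.Agent.TH888.R.VS S := fun S => funext fun n => L_eq S n
  refine ⟨fun n => ?_, fun A hA => ⟨?_, ?_⟩, fun A hA hpos => ⟨?_, fun S hS => ?_, fun S => ?_⟩⟩
  · have h := closed (K := ℝ) (s := Real.sqrt 2) (Real.mul_self_sqrt (by norm_num)) n
    rw [V_two, h.1, h.2]
    ring
  · rintro m ⟨hm, hm2⟩ n ⟨hn, hn2⟩ h
    simp only [W_two hA hm hm2, W_two hA hn hn2] at h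
    rcases lt_trichotomy m n with h1 | h1 | h1
    · exact absurd h (a_lt hm.pos h1).ne
    · exact h1
    · exact absurd h (a_lt hn.pos h1).ne'
  · ext p
    simp only [Set.mem_image, Set.mem_ofPred_eq]
    constructor
    · rintro ⟨n, ⟨⟨hn, hn2⟩, hw⟩, rfl⟩
      refine ⟨hw, b n, b_pos hn.pos, ?_⟩
      rw [W_two hA hn hn2]
      have h1 := norm_odd (hn.odd_of_ne_two hn2)
      have h2 : ((a n ^ 2 + 1 : ℕ) : ℤ) = ((2 * b n ^ 2 : ℕ) : ℤ) := by rw [h1]
      push_cast at h2
      linarith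
    · rintro ⟨hp, r, hr, h⟩
      have h1 : p ^ 2 + 1 = 2 * r ^ 2 := by
        have h2 : ((p ^ 2 + 1 : ℕ) : ℤ) = ((2 * r ^ 2 : ℕ) : ℤ) := by
          push_cast
          linarith
        exact_mod_cast h2
      obtain ⟨n, hn, e1, e2⟩ := sol r p h1
      have h3 : n.Prime := prime_index_a hn (e1 ▸ hp)
      have h4 : n ≠ 2 := by
        rintro rfl
        exact absurd hn (by decide)
      refine ⟨n, ⟨⟨h3, h4⟩, ?_⟩, ?_⟩
      · rw [W_two hA h3 h4, ← e1]
        exact hp
      · rw [W_two hA h3 h4, ← e1]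
  · filter_upwards [Pool.Agent.TH888.C.pt_V_curve Set.univ hA hpos] with x hx h0
    obtain ⟨B, hB, h⟩ := (hx h0).law Pool.Agent.TH888.R.VS_univ_tendsto
    simp only [M_eq]
    exact Pool.Agent.TH888.R.bigO_all hB h
  · rw [hV] at hS ⊢
    filter_upwards [Pool.Agent.TH888.C.pt_V_curve S hA hpos] with x hx h0
    obtain ⟨B, hB, h⟩ := (hx h0).law hS
    simp only [M_eq]
    exact Pool.Agent.TH888.R.bigO_set hB hS h
  · rw [hV]
    filter_upwards [Pool.Agent.TH888.C.pt_V_curve S hA hpos] with x hx h0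
    rw [set_eq]
    constructor
    · intro hi
      by_contra hn
      exact hi ((hx h0).fin hn)
    · exact (hx h0).inf

end Pool.Agent.Results.MP_927e73_nt.PrimeNumerators
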