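import Mathlib
import Pool.Agent.TH888.C.Val
import Pool.Agent.Y712.Pell
import Pool.Agent.Y712.PellPair

set_option autoImplicit false

/-!
# Pairs of primes: the family through the negative Pell equation

For real `x > 0` let `V x n` and `U x n` be the Lucas sequences with parameters `(x, -1)`, so that
`V 2 n = (1 + √2) ^ n + (1 - √2) ^ n` and `U 2 n = ((1 + √2) ^ n - (1 - √2) ^ n) / (2 √2)`.  For
positive functions `A`, `B` with `A 2 = 1 / 2`, `B 2 = 1` and an odd prime `n` let `P A x n` and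
`R B x n` be the `n`-rough parts (the products, with multiplicity, of the prime factors larger than
`n`) of `⌊A x * V x n⌋` and `⌊B x * U x n⌋`.

At `x = 2` the pairs `(P A 2 n, R B 2 n)` of two primes, for odd primes `n`, are exactly the pairs of
primes with `p ^ 2 - 2 r ^ 2 = -1`, each taken once, so that Q2 asks whether there are infinitely
many primes `n` for which `P A 2 n` and `R B 2 n` are both prime.  We prove, for positive `C ^ 2`
functions `A`, `B` such that `A x * √(x ^ 2 + 4) / B x` has positive derivative (for instance the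
constants `1 / 2` and `1`), that for almost every real `x > 0` there are infinitely many primes `n`
with `P A x n` prime, infinitely many primes `n` with `R B x n` prime, and only finitely many primes
`n` for which both are prime.
-/

namespace Pool.Agent.Results.MP_927e73_nt.PrimePairs

open Filter Topology MeasureTheory

/-- The Lucas sequence of the first kind with parameters `(x, -1)`. -/
noncomputable def U (x : ℝ) : ℕ → ℝ
  | 0 => 0
  | 1 => 1
  | (n + 2) => x * U x (n + 1) + U x n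

/-- The Lucas sequence of the second kind with parameters `(x, -1)`. -/
noncomputable def V (x : ℝ) : ℕ → ℝ
  | 0 => 2
  | 1 => x
  | (n + 2) => x * V x (n + 1) + V x n

/-- The product, with multiplicity, of the prime factors of `m` that are larger than `p`. -/
def roughPart (p m : ℕ) : ℕ := (m.primeFactorsList.filter (fun r => p < r)).prod

/-- The `n`-rough part of `⌊A x * V x n⌋`. -/
noncomputable def P (A : ℝ → ℝ) (x : ℝ) (n : ℕ) : ℕ := roughPart n ⌊A x * V x n⌋₊

/-- The `n`-rough part of `⌊B x * U x n⌋`. -/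
noncomputable def R (B : ℝ → ℝ) (x : ℝ) (n : ℕ) : ℕ := roughPart n ⌊B x * U x n⌋₊

lemma V_eq (x : ℝ) : ∀ n : ℕ, V x n = Pool.Agent.W66C.lV x n
  | 0 => rfl
  | 1 => rfl
  | (n + 2) => by
      have e : Pool.Agent.W66C.lV x (n + 2) =
        x * Pool.Agent.W66C.lV x (n + 1) + Pool.Agent.W66C.lV x n := rfl
      rw [e, ← V_eq x (n + 1), ← V_eq x n]
      rfl

lemma U_eq (x : ℝ) : ∀ n : ℕ, U x n = Pool.Agent.W66C.lU x n
  | 0 => rfl
  | 1 => rfl
  | (n + 2) => by
      have e : Pool.Agent.W66C.lU x (n + 2) =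
        x * Pool.Agent.W66C.lU x (n + 1) + Pool.Agent.W66C.lU x n := rfl
      rw [e, ← U_eq x (n + 1), ← U_eq x n]
      rfl

open Pool.Agent.Y712.Pell

lemma V_two : ∀ n : ℕ, V 2 n = 2 * (a n : ℝ)
  | 0 => by simp [V, a_zero]
  | 1 => by simp [V, a_one]
  | (n + 2) => by
      have e : V 2 (n + 2) = 2 * V 2 (n + 1) + V 2 n := rfl
      rw [e, V_two (n + 1), V_two n, a_succ (n + 1), b_succ, a_succ]
      push_cast
      ring

lemma U_two : ∀ n : ℕ, U 2 n = (b n : ℝ)
  | 0 => by simp [U, b_zero]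
  | 1 => by simp [U, b_one]
  | (n + 2) => by
      have e : U 2 (n + 2) = 2 * U 2 (n + 1) + U 2 n := rfl
      rw [e, U_two (n + 1), U_two n, b_succ (n + 1), b_succ, a_succ]
      push_cast
      ring

lemma P_two {A : ℝ → ℝ} (hA : A 2 = 1 / 2) {n : ℕ} (hn : n.Prime) (hn2 : n ≠ 2) : P A 2 n = a n := by
  unfold P
  rw [hA, V_two]
  have e : (1 / 2 : ℝ) * (2 * (a n : ℝ)) = (a n : ℝ) := by ring
  rw [e, Nat.floor_natCast]
  exact rough_self (a_pos n).ne' fun q hq hd => factor_gt hn hn2 hq (hd.mul_right _)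

lemma R_two {B : ℝ → ℝ} (hB : B 2 = 1) {n : ℕ} (hn : n.Prime) (hn2 : n ≠ 2) : R B 2 n = b n := by
  unfold R
  rw [hB, U_two, one_mul, Nat.floor_natCast]
  exact rough_self (b_pos hn.pos).ne' fun q hq hd => factor_gt hn hn2 hq (hd.mul_left _)

/-- At `x = 2` the pairs of prime values are the pairs of primes of the question, and for almost
every real `x > 0` each of the two numbers is a prime infinitely often, but both are primes only
finitely often. -/
theorem result :
    (∀ n : ℕ, V 2 n = (1 + Real.sqrt 2) ^ n + (1 - Real.sqrt 2) ^ n ∧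
      U 2 n = ((1 + Real.sqrt 2) ^ n - (1 - Real.sqrt 2) ^ n) / (2 * Real.sqrt 2)) ∧
    (∀ A B : ℝ → ℝ, A 2 = 1 / 2 → B 2 = 1 →
      Set.InjOn (fun n => (P A 2 n, R B 2 n)) {n : ℕ | n.Prime ∧ n ≠ 2} ∧
      (fun n => (P A 2 n, R B 2 n)) ''
          {n : ℕ | (n.Prime ∧ n ≠ 2) ∧ (P A 2 n).Prime ∧ (R B 2 n).Prime} =
        {q : ℕ × ℕ | q.1.Prime ∧ q.2.Prime ∧ (q.1 : ℤ) ^ 2 - 2 * (q.2 : ℤ) ^ 2 = -1}) ∧
    (∀ A B : ℝ → ℝ, ContDiffOn ℝ 2 A (Set.Ioi 0) → (∀ x : ℝ, 0 < x → 0 < A x) →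
      ContDiffOn ℝ 2 B (Set.Ioi 0) → (∀ x : ℝ, 0 < x → 0 < B x) →
      (∀ x : ℝ, 0 < x → 0 < deriv (fun x => A x * Real.sqrt (x ^ 2 + 4) / B x) x) →
      ∀ᵐ x : ℝ, 0 < x →
        {n : ℕ | n.Prime ∧ (P A x n).Prime}.Infinite ∧ {n : ℕ | n.Prime ∧ (R B x n).Prime}.Infinite ∧
        {n : ℕ | n.Prime ∧ (P A x n).Prime ∧ (R B x n).Prime}.Finite) ∧
    (∀ x : ℝ, 0 < x → 0 < deriv (fun x => (1 / 2 : ℝ) * Real.sqrt (x ^ 2 + 4) / 1) x) := by
  refine ⟨fun n => ⟨?_, ?_⟩, fun A B hA hB => ⟨?_, ?_⟩, fun A B hA hApos hB hBpos hG => ?_,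
    fun x hx => ?_⟩
  · have h := closed (K := ℝ) (s := Real.sqrt 2) (Real.mul_self_sqrt (by norm_num)) n
    rw [V_two, h.1, h.2]
    ring
  · have h := closed (K := ℝ) (s := Real.sqrt 2) (Real.mul_self_sqrt (by norm_num)) n
    have h2 : Real.sqrt 2 ≠ 0 := (Real.sqrt_pos.2 (by norm_num)).ne'
    rw [U_two, h.1, h.2]
    field_simp
    ring
  · rintro m ⟨hm, hm2⟩ n ⟨hn, hn2⟩ h
    simp only [P_two hA hm hm2, P_two hA hn hn2, Prod.mk.injEq] at h
    rcases lt_trichotomy m n with h1 | h1 | h1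
    · exact absurd h.1 (a_lt hm.pos h1).ne
    · exact h1
    · exact absurd h.1 (a_lt hn.pos h1).ne'
  · ext ⟨p, r⟩
    simp only [Set.mem_image, Set.mem_ofPred_eq, Prod.mk.injEq]
    constructor
    · rintro ⟨n, ⟨⟨hn, hn2⟩, hw, hw2⟩, rfl, rfl⟩
      refine ⟨hw, hw2, ?_⟩
      rw [P_two hA hn hn2, R_two hB hn hn2]
      have h1 := norm_odd (hn.odd_of_ne_two hn2)
      have h2 : ((a n ^ 2 + 1 : ℕ) : ℤ) = ((2 * b n ^ 2 : ℕ) : ℤ) := by rw [h1]
      push_cast at h2
      linarith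
    · rintro ⟨hp, hr, h⟩
      have h1 : p ^ 2 + 1 = 2 * r ^ 2 := by
        have h2 : ((p ^ 2 + 1 : ℕ) : ℤ) = ((2 * r ^ 2 : ℕ) : ℤ) := by
          push_cast
          linarith
        exact_mod_cast h2
      obtain ⟨n, hn, e1, e2⟩ := sol r p h1
      have h3 : n.Prime := prime_index_a hn (e1 ▸ hp)
      have h4 : n ≠ 2 := by
        rintro rfl
        exact absurd hn (by decide)
      refine ⟨n, ⟨⟨h3, h4⟩, ?_, ?_⟩, ?_, ?_⟩
      · rw [P_two hA h3 h4, ← e1]
        exact hp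
      · rw [R_two hB h3 h4, ← e2]
        exact hr
      · rw [P_two hA h3 h4, ← e1]
      · rw [R_two hB h3 h4, ← e2]
  · filter_upwards [Pool.Agent.TH888.C.pt_V_curve Set.univ hA hApos,
      Pool.Agent.TH888.C.pt_U_curve Set.univ hB hBpos, fin_UV hA hApos hB hBpos hG] with x h1 h2 h3 hx
    refine ⟨?_, ?_, ?_⟩
    · have h := (h1 hx).inf Pool.Agent.TH888.R.VS_univ_tendsto
      unfold P
      simp only [V_eq]
      refine h.mono ?_
      rintro p ⟨k1, _, k2⟩
      exact ⟨k1, k2⟩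
    · have h := (h2 hx).inf Pool.Agent.TH888.R.VS_univ_tendsto
      unfold R
      simp only [U_eq]
      refine h.mono ?_
      rintro p ⟨k1, _, k2⟩
      exact ⟨k1, k2⟩
    · unfold P R
      simp only [V_eq, U_eq]
      refine (h3 hx).subset ?_
      rintro p ⟨k1, k2, k3⟩
      exact ⟨k1, k3, k2⟩
  · have h1 : HasDerivAt (fun x : ℝ => x ^ 2 + 4) (2 * x) x := by
      simpa using (hasDerivAt_pow 2 x).add_const 4
    have h2 : x ^ 2 + 4 ≠ 0 := by positivity
    have h3 := ((h1.sqrt h2).const_mul (1 / 2 : ℝ)).div_const 1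
    rw [h3.deriv]
    have h4 : 0 < Real.sqrt (x ^ 2 + 4) := Real.sqrt_pos.2 (by positivity)
    positivity

end Pool.Agent.Results.MP_927e73_nt.PrimePairs
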